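import Pool.Agent.Y303.EJ.Stm
import Pool.Agent.Y6.N.P3

/-! Project EJ: the time before the first stage. -/

open Set Filter Topology MeasureTheory Metric

set_option autoImplicit false

namespace Pool.Agent.Y273.EJ

open Pool.Agent.Y5 (Pr Pr_cont Pr_deriv Pr_mono mono_of Pr_zero)
open Pool.Agent.Y6.N (src ph pos_gron)
open Pool.Agent.Y303.EJ

lemma sq_exp {y : ℝ} (hy : 10 ^ 30 ≤ y) : y ^ 2 * Real.exp (-y) ≤ 1 / 10 ^ 20 := by
  have hy0 : 0 < y := lt_of_lt_of_le (by norm_num) hy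
  have h := Real.pow_div_factorial_le_exp y hy0.le 3
  have h3 : ((Nat.factorial 3 : ℕ) : ℝ) = 6 := by norm_num [Nat.factorial]
  rw [h3] at h
  rw [Real.exp_neg]
  have he := Real.exp_pos y
  rw [← div_eq_mul_inv, div_le_div_iff₀ he (by norm_num)]
  have h5 : 10 ^ 30 * y ^ 2 ≤ y ^ 3 := by
    have : y ^ 3 = y * y ^ 2 := by ring
    rw [this]; gcongr
  have h6 : (10 : ℝ) ^ 30 = 10 ^ 20 * 10 ^ 10 := by norm_num
  nlinarith [sq_nonneg y]

section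

variable {η : ℝ} {lm L C ℓ : ℕ → ℝ} {B : ℕ → ℕ → ℝ} {T : ℝ} {x R V : ℕ → ℝ → ℝ}

/-- the numerical facts used below -/
structure Nf (η : ℝ) (lm L C ℓ : ℕ → ℝ) : Prop where
  L0 : 1 ≤ L 0
  l0 : 10 ^ 30 ≤ lm 0
  l1 : 10 ^ 8 * lm 0 ≤ lm 1
  E : 20 * Real.exp (-(lm 1)) ≤ C 0
  Clo : Real.exp (-(16 / 10 * lm 0)) ≤ C 0
  Ch : C 0 ≤ 1
  R1b : 3 * lm 0 * (C 0 + 2 * ph lm 1) ≤ cn η 0
  tb : 2 * lm 0 * Real.exp (-(lm 1)) ≤ cn η 0 / 2
  c0 : 0 < cn η 0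
  c1 : cn η 0 ≤ 1 / 10 ^ 5
  L1 : lm 1 * L 0 = L 1
  lE : lm 1 * Real.exp (-(lm 1)) ≤ 1 / 200
  th : 3 * lm 0 * (lm 1 * Real.exp (-(lm 1))) ≤ 1
  e0 : Pool.Agent.Y303.EJ.e0 lm ≤ 1 / 100
  ℓ1 : ℓ 1 ≤ 1 / 100 * L 0
  C1 : C 1 ≤ 1
  C1p : 0 < C 1

lemma nf (sq : SeqE η lm L C ℓ B) (nm : Num η lm L C ℓ) : Nf η lm L C ℓ := by
  have hl0 := nm.lm1 0
  have hl1 := nm.lm1 1
  have hlp : 0 < lm 0 := lt_of_lt_of_le (by norm_num) hl0
  have hlp1 : 0 < lm 1 := lt_of_lt_of_le (by norm_num) hl1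
  have hd0 := nm.d0 0
  have hd1 := nm.d0 1
  have hd1' := nm.d1 1
  have hd0' := nm.d1 0
  have hds : dl η 1 = dl η 0 / 4 := nm.ds 0
  have hlmd := nm.lmd 0
  have g : 10 ^ 8 * lm 0 ≤ lm 1 := by
    refine (sq.lm_grow 0).trans ?_
    have : dl η (0 + 1) ^ 4 ≤ 1 := pow_le_one₀ hd1.le (by simpa using hd1'.trans (by norm_num))
    nlinarith
  have hE : Real.exp (-(lm 1)) ≤ Real.exp (-(lm 0)) := Real.exp_le_exp.2 (by linarith)
  have hcn : cn η 0 = dl η 0 / 4000 := by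
    unfold cn; rw [zero_add, hds]; ring
  have key : 9 * lm 0 * Real.exp (-(lm 0)) ≤ cn η 0 := by
    have h := sq_exp hl0
    rw [hcn]
    have h2 : lm 0 * (9 * lm 0 * Real.exp (-(lm 0))) ≤ lm 0 * (dl η 0 / 4000) := by
      have e1 : lm 0 * (9 * lm 0 * Real.exp (-(lm 0))) = 9 * (lm 0 ^ 2 * Real.exp (-(lm 0))) := by
        ring
      have e2 : lm 0 * (dl η 0 / 4000) = dl η 0 * lm 0 / 4000 := by ring
      rw [e1, e2]
      have : (10 : ℝ) ^ 30 / 4000 ≤ dl η 0 * lm 0 / 4000 := by gcongr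
      refine le_trans ?_ this
      refine (mul_le_mul_of_nonneg_left h (by norm_num)).trans ?_
      norm_num
    exact le_of_mul_le_mul_left h2 hlp
  have hC1 := nm.C1 0
  have hCe : C 0 ≤ Real.exp (-(lm 0)) := hC1.trans (Real.exp_le_exp.2 (by linarith))
  have hClo : Real.exp (-(16 / 10 * lm 0)) ≤ C 0 := by
    refine le_trans (Real.exp_le_exp.2 ?_) (sq.C_lo 0)
    have hp := Real.pi_lt_d2
    have : (Real.pi / 2 + dl η 0 / 1000) ≤ 16 / 10 := by linarith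
    nlinarith
  have s1 := sq_exp hl1
  have lE : lm 1 * Real.exp (-(lm 1)) ≤ 1 / 200 := by
    have h1 : lm 1 * (lm 1 * Real.exp (-(lm 1))) ≤ lm 1 * (1 / 200) := by
      have e : lm 1 * (lm 1 * Real.exp (-(lm 1))) = lm 1 ^ 2 * Real.exp (-(lm 1)) := by ring
      rw [e]
      refine s1.trans ?_
      have : (10 : ℝ) ^ 30 * (1 / 200) ≤ lm 1 * (1 / 200) := by gcongr
      refine le_trans (by norm_num) this
    exact le_of_mul_le_mul_left h1 hlp1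
  have hE0 := Real.exp_pos (-(lm 1))
  refine
    { L0 := sq.L0, l0 := hl0, l1 := g, E := ?_, Clo := hClo, Ch := ?_, R1b := ?_, tb := ?_,
      c0 := ?_, c1 := ?_, L1 := sq.lm_succ 0, lE := lE, th := ?_, e0 := ?_,
      ℓ1 := ?_, C1 := ?_, C1p := nm.C0 1 }
  · refine le_trans ?_ hClo
    have h1 : (20 : ℝ) ≤ Real.exp (lm 0) := by
      have := Real.add_one_le_exp (lm 0)
      refine le_trans ?_ this
      have : (20 : ℝ) ≤ 10 ^ 30 := by norm_num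
      linarith
    calc 20 * Real.exp (-(lm 1)) ≤ Real.exp (lm 0) * Real.exp (-(lm 1)) := by gcongr
      _ = Real.exp (lm 0 + -(lm 1)) := (Real.exp_add _ _).symm
      _ ≤ _ := Real.exp_le_exp.2 (by linarith)
  · exact hC1.trans (Real.exp_le_one_iff.2 (by linarith))
  · refine le_trans ?_ key
    have hph : ph lm 1 = Real.exp (-(lm 1)) := rfl
    rw [hph]
    have : C 0 + 2 * Real.exp (-(lm 1)) ≤ 3 * Real.exp (-(lm 0)) := by linarith
    calc 3 * lm 0 * (C 0 + 2 * Real.exp (-(lm 1))) ≤ 3 * lm 0 * (3 * Real.exp (-(lm 0))) := by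
          gcongr
      _ = _ := by ring
  · have : 2 * lm 0 * Real.exp (-(lm 1)) ≤ 2 * lm 0 * Real.exp (-(lm 0)) := by gcongr
    have h3 : 0 ≤ lm 0 * Real.exp (-(lm 0)) := by positivity
    linarith
  · rw [hcn]; positivity
  · rw [hcn]; linarith
  · calc 3 * lm 0 * (lm 1 * Real.exp (-(lm 1))) ≤ 3 * lm 1 * (lm 1 * Real.exp (-(lm 1))) := by
          gcongr; linarith
      _ = 3 * (lm 1 ^ 2 * Real.exp (-(lm 1))) := by ring
      _ ≤ 3 * (1 / 10 ^ 20) := by gcongr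
      _ ≤ 1 := by norm_num
  · have h := nm.e1
    have h0 : 0 ≤ Pool.Agent.Y303.EJ.e0 lm := by
      unfold Pool.Agent.Y303.EJ.e0; positivity
    have h1 := nm.L1 0
    nlinarith
  · have h := sq.ℓ_succ 0
    have h1 : dl η (0 + 1) ^ 4 ≤ 1 :=
      pow_le_one₀ hd1.le (by simpa using hd1'.trans (by norm_num))
    have h2 := nm.L1 0
    have h3 : dl η (0 + 1) ^ 4 * L 0 ≤ 1 * L 0 := by gcongr
    have h4 : (10 : ℝ) ^ 6 * ℓ 1 ≤ L 0 := by simpa using h.trans h3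
    linarith
  · exact (nm.C1 1).trans (Real.exp_le_one_iff.2 (by linarith))


lemma Th_cont (ch : Ch η lm L C ℓ B T x R V) (n : ℕ) :
    ContinuousOn (fun s => L n * R (n + 1) s) (Ico 0 T) :=
  continuousOn_const.mul (ch.cR (n + 1))

lemma Th_mono (ch : Ch η lm L C ℓ B T x R V) (n : ℕ) {a b : ℝ} (ha : a ∈ Ico 0 T)
    (hb : b ∈ Ico 0 T) (hab : a ≤ b) : Th L R n a ≤ Th L R n b := by
  refine Pr_mono (Th_cont ch n) ha hb hab fun t ht => ?_
  have h1 := ch.nm.L1 n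
  have h2 := ch.R0 (n + 1) t ⟨ha.1.trans ht.1.le, ht.2.trans hb.2⟩
  have : 0 ≤ L n := by linarith
  positivity

lemma step1 (ch : Ch η lm L C ℓ B T x R V) (gz : GZ lm L C T R) (upa : UPA η lm L T R)
    (enl : ENL η lm L T R) (f : Nf η lm L C ℓ) {t : ℝ} (ht : t ∈ Ico 0 T)
    (hTh : Th L R 0 t ≤ cn η 0) (hL : L 0 * t ≤ 3 * lm 0) : ∀ s ∈ Icc 0 t,
    R 2 s ≤ Real.exp (-(lm 1)) ∧ R 1 s ≤ 3 * cn η 0 ∧ 98 / 100 ≤ x 0 s := by
  have hT' : ∀ s ∈ Icc 0 t, s ∈ Ico 0 T := fun s hs => ⟨hs.1, hs.2.trans_lt ht.2⟩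
  have hLs : ∀ s ∈ Icc 0 t, L 0 * s ≤ 3 * lm 0 := fun s hs => by
    have h0 := f.L0
    have : L 0 * s ≤ L 0 * t := mul_le_mul_of_nonneg_left hs.2 (by linarith)
    linarith
  have hThs : ∀ s ∈ Icc 0 t, Th L R 0 s ≤ cn η 0 := fun s hs =>
    (Th_mono ch 0 (hT' s hs) ht hs.2).trans hTh
  have hl1 : 0 < lm 1 := lt_of_lt_of_le (by norm_num) (ch.nm.lm1 1)
  have hR2 : ∀ s ∈ Icc 0 t, R 2 s ≤ Real.exp (-(lm 1)) := by
    intro s hs
    refine (upa.2 0 s (hT' s hs) (hLs s hs) (fun i hi => absurd hi (Nat.not_lt_zero i))).trans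
      (Real.exp_le_exp.2 ?_)
    have h1 := hThs s hs
    have h2 := f.c1
    have h3 := Real.pi_gt_d2
    have h4 := ch.nm.d1 (0 + 1)
    have h5 : Th L R 0 s - Real.pi / 2 + dl η (0 + 1) / 100 ≤ -1 := by
      have : (1 : ℝ) / 10 ^ 5 ≤ 1 / 100 := by norm_num
      linarith
    calc lm (0 + 1) * (Th L R 0 s - Real.pi / 2 + dl η (0 + 1) / 100) ≤ lm (0 + 1) * (-1) := by
          refine mul_le_mul_of_nonneg_left h5 ?_
          simpa using hl1.le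
      _ = -(lm 1) := by simp
  have hR1 : ∀ s ∈ Icc 0 t, R 1 s ≤ 3 * cn η 0 := by
    intro s hs
    have h := gz 0 s (hT' s hs)
    have h1 := hThs s hs
    have h2 : s * (L 0 * C 0 + 2 * ph lm (0 + 1)) ≤ cn η 0 := by
      refine le_trans ?_ f.R1b
      have h3 := f.L0
      have h4 : 0 ≤ ph lm 1 := (Real.exp_pos _).le
      have h5 : 0 < C 0 := ch.nm.C0 0
      have h6 := hLs s hs
      have h7 : s * (2 * ph lm 1) ≤ L 0 * s * (2 * ph lm 1) := by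
        refine mul_le_mul_of_nonneg_right ?_ (by linarith)
        nlinarith [hs.1]
      calc s * (L 0 * C 0 + 2 * ph lm (0 + 1)) = L 0 * s * C 0 + s * (2 * ph lm 1) := by
            rw [zero_add]; ring
        _ ≤ L 0 * s * C 0 + L 0 * s * (2 * ph lm 1) := by linarith
        _ = L 0 * s * (C 0 + 2 * ph lm 1) := by ring
        _ ≤ 3 * lm 0 * (C 0 + 2 * ph lm 1) := by
            refine mul_le_mul_of_nonneg_right h6 (by linarith)
    have h3 : R (0 + 1) s = R 1 s := rfl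
    rw [h3] at h
    linarith
  have hHis : ∀ s ∈ Icc 0 t, His η lm L R 0 s := by
    intro s hs
    refine ⟨hLs s hs, ?_, ?_⟩
    · intro i hi
      have : i = 0 := Nat.le_zero.1 hi
      subst this
      have h1 := hThs s hs
      have h2 := f.c1
      have : (1 : ℝ) / 10 ^ 5 ≤ 2 := by norm_num
      linarith
    · -- the clock 1
      have hs0 : (0 : ℝ) ∈ Ico 0 T := ⟨le_rfl, ch.hT⟩
      have hm := mono_of (f := fun τ => L 1 * Real.exp (-(lm 1)) * τ - Pr (fun s => L 1 * R 2 s) τ)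
        (f' := fun τ => L 1 * Real.exp (-(lm 1)) * 1 - L 1 * R 2 τ) hs.1
        ((continuousOn_const.mul continuousOn_id).sub ((Pr_cont (Th_cont ch 1)).mono
          fun τ hτ => ⟨hτ.1, hτ.2.trans_lt (hs.2.trans_lt ht.2)⟩))
        (fun τ hτ => ((hasDerivAt_id τ).const_mul _).sub (Pr_deriv (Th_cont ch 1)
          ⟨hτ.1, hτ.2.trans (hs.2.trans_lt ht.2)⟩))
        (fun τ hτ => by
          have h1 := hR2 τ ⟨hτ.1.le, hτ.2.le.trans hs.2⟩
          have h2 : 0 ≤ L 1 := by linarith [ch.nm.L1 1]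
          have h3 := mul_le_mul_of_nonneg_left h1 h2
          linarith)
      have h1 : Th L R (0 + 1) s = Pr (fun s => L 1 * R 2 s) s := rfl
      rw [h1]
      have h2 : Pr (fun s => L 1 * R 2 s) s ≤ L 1 * Real.exp (-(lm 1)) * s := by
        simp only [Pr_zero, mul_zero, sub_zero] at hm
        linarith
      refine h2.trans ?_
      rw [← f.L1]
      have h3 := hLs s hs
      have h4 := f.th
      have h5 : 0 ≤ lm 1 * Real.exp (-(lm 1)) := by positivity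
      calc lm 1 * L 0 * Real.exp (-(lm 1)) * s = L 0 * s * (lm 1 * Real.exp (-(lm 1))) := by ring
        _ ≤ 3 * lm 0 * (lm 1 * Real.exp (-(lm 1))) := mul_le_mul_of_nonneg_right h3 h5
        _ ≤ 1 := h4
  have hx2 : ∀ s ∈ Icc 0 t, (98 / 100) ^ 2 ≤ x 0 s ^ 2 := by
    intro s hs
    have h1 := enl 0 s (hT' s hs) (hHis s hs)
    have h2 := ch.Rsq 0 s (hT' s hs)
    have h3 := hR1 s hs
    have h4 := ch.R0 1 s (hT' s hs)
    have h5 := ch.sq.η0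
    have h6 := ch.sq.η1
    have h7 := f.c1
    have h8 : R (0 + 1) s = R 1 s := rfl
    rw [h8] at h2
    have h9 : R 1 s ≤ 1 / 100 := by
      have : 3 * ((1 : ℝ) / 10 ^ 5) ≤ 1 / 100 := by norm_num
      linarith
    have h10 : R 1 s ^ 2 ≤ (1 / 100) ^ 2 := pow_le_pow_left₀ h4 h9 2
    have h11 : η ^ 2 ≤ (1 / 100) ^ 2 := pow_le_pow_left₀ h5.le h6 2
    nlinarith
  intro s hs
  refine ⟨hR2 s hs, hR1 s hs, ?_⟩
  by_contra hcon
  push Not at hcon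
  have hneg : x 0 s < 0 := by
    by_contra h
    push Not at h
    have := hx2 s hs
    nlinarith
  have hc : ContinuousOn (x 0) (Icc 0 s) := (ch.cx 0).mono fun τ hτ =>
    ⟨hτ.1, hτ.2.trans_lt (hs.2.trans_lt ht.2)⟩
  obtain ⟨c, hc1, hc2⟩ := intermediate_value_Icc' hs.1 hc
    (show (0 : ℝ) ∈ Icc (x 0 s) (x 0 0) from ⟨hneg.le, by rw [ch.h0]; norm_num⟩)
  have := hx2 c ⟨hc1.1, hc1.2.trans hs.2⟩
  rw [hc2] at this
  norm_num at this

lemma dineq (ch : Ch η lm L C ℓ B T x R V) (f : Nf η lm L C ℓ) {s : ℝ} (hs : s ∈ Ioo 0 T)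
    (h2 : R 2 s ≤ Real.exp (-(lm 1))) (h0 : 98 / 100 ≤ x 0 s) :
    ∃ v, HasDerivAt (x 1) v s ∧
      (0 ≤ x 1 s → 9 / 10 * L 0 * x 1 s + 9 / 20 * (L 0 * C 0) ≤ v) ∧
      (x 1 s ≤ 0 → -v ≤ 2 * L 0 * (-x 1 s)) := by
  obtain ⟨v, hv, hb⟩ := ch.dx 1 s hs
  refine ⟨v, hv, ?_⟩
  have hs' : s ∈ Ico 0 T := ⟨hs.1.le, hs.2⟩
  have e1 : Sg L x 1 s = L 0 * x 0 s := by simp [Sg]
  have e2 : src L C x 1 s = L 0 * C 0 * x 0 s ^ 2 := by simp [src]
  have e3 : ph lm 1 = Real.exp (-(lm 1)) := rfl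
  have e4 : R (1 + 1) s = R 2 s := rfl
  rw [e1, e2, e3, e4] at hb
  set E := Real.exp (-(lm 1)) with hE
  set W := R 2 s with hW
  set X := x 1 s with hX
  set Z := x 0 s with hZ
  have hE0 : 0 < E := Real.exp_pos _
  have hE1 : E ≤ 1 := Real.exp_le_one_iff.2 (by
    have : 0 < lm 1 := lt_of_lt_of_le (by norm_num) (ch.nm.lm1 1)
    linarith)
  have hW0 : 0 ≤ W := ch.R0 2 s hs'
  have hL0 := f.L0
  have hL0' : 0 < L 0 := by linarith
  have hl1 : 0 < lm 1 := lt_of_lt_of_le (by norm_num) (ch.nm.lm1 1)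
  have hlE := f.lE
  have hC0 : 0 < C 0 := ch.nm.C0 0
  have hEC := f.E
  have hZ1 : Z ≤ 1 := by
    have h3 := ch.Rsq 0 s hs'
    have h4 := ch.R1 s hs'
    have h5 := ch.R0 0 s hs'
    have h6 : R 0 s ^ 2 ≤ 1 := pow_le_one₀ h5 h4
    have h7 := ch.R0 (0 + 1) s hs'
    nlinarith [sq_nonneg (R (0 + 1) s)]
  have hWW : W ^ 2 ≤ E ^ 2 := pow_le_pow_left₀ hW0 h2 2
  have hEE : E ^ 2 ≤ E := by nlinarith
  have a1 : L 1 * W ^ 2 ≤ L 0 * E := by
    have hL1 : 0 ≤ L 1 := by linarith [ch.nm.L1 1]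
    calc L 1 * W ^ 2 ≤ L 1 * E ^ 2 := mul_le_mul_of_nonneg_left hWW hL1
      _ = (lm 1 * E) * (L 0 * E) := by rw [← f.L1]; ring
      _ ≤ 1 * (L 0 * E) := by
          refine mul_le_mul_of_nonneg_right ?_ (by positivity)
          linarith
      _ = L 0 * E := one_mul _
  have a2 : Real.exp (-(lm (1 + 1) / 2)) * W ^ 2 ≤ L 0 * E := by
    have h3 : Real.exp (-(lm (1 + 1) / 2)) ≤ 1 := Real.exp_le_one_iff.2 (by
      have : 0 < lm (1 + 1) := lt_of_lt_of_le (by norm_num) (ch.nm.lm1 (1 + 1))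
      linarith)
    calc Real.exp (-(lm (1 + 1) / 2)) * W ^ 2 ≤ 1 * W ^ 2 :=
          mul_le_mul_of_nonneg_right h3 (sq_nonneg _)
      _ ≤ E := by linarith
      _ ≤ L 0 * E := by
          have := mul_le_mul_of_nonneg_right hL0 hE0.le
          linarith
  have a3 : E ≤ L 0 * E := by
    have := mul_le_mul_of_nonneg_right hL0 hE0.le
    linarith
  have a0 : 3 * (L 0 * E) ≤ 3 / 20 * (L 0 * C 0) := by
    have := mul_le_mul_of_nonneg_left hEC hL0'.le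
    linarith
  have a4 : C 1 * L 1 * |X| * W ≤ 1 / 200 * (L 0 * |X|) := by
    have hL1 : 0 ≤ L 1 := by linarith [ch.nm.L1 1]
    have hX0 := abs_nonneg X
    have hC1 := f.C1
    have hC1p := f.C1p
    calc C 1 * L 1 * |X| * W ≤ 1 * L 1 * |X| * E := by gcongr
      _ = (lm 1 * E) * (L 0 * |X|) := by rw [← f.L1]; ring
      _ ≤ 1 / 200 * (L 0 * |X|) := by gcongr
  have a5 : e0 lm * |X| ≤ 1 / 100 * (L 0 * |X|) := by
    have hX0 := abs_nonneg X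
    calc e0 lm * |X| ≤ 1 / 100 * |X| := mul_le_mul_of_nonneg_right f.e0 hX0
      _ ≤ 1 / 100 * (L 0 * |X|) := by
          have := mul_le_mul_of_nonneg_right hL0 hX0
          linarith
  have a7 := ch.sq.ℓ_nonneg 1
  have hZ2 : (98 / 100) ^ 2 ≤ Z ^ 2 := pow_le_pow_left₀ (by norm_num) h0 2
  have hLC : 0 < L 0 * C 0 := by positivity
  have a8 : (98 / 100) ^ 2 * (L 0 * C 0) ≤ L 0 * C 0 * Z ^ 2 := by
    have := mul_le_mul_of_nonneg_left hZ2 hLC.le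
    linarith
  obtain ⟨hb1, hb2⟩ := abs_le.1 hb
  constructor
  · intro hX0
    have hXa : |X| = X := abs_of_nonneg hX0
    rw [hXa] at a4 a5 hb1 hb2
    have a6 : ℓ 1 * X ≤ 1 / 100 * (L 0 * X) := by
      have := mul_le_mul_of_nonneg_right f.ℓ1 hX0
      linarith
    have a10 : 0 ≤ L 0 * X := by positivity
    have a9 : 98 / 100 * (L 0 * X) ≤ L 0 * Z * X := by
      have := mul_le_mul_of_nonneg_left h0 a10
      linarith
    have a11 : 0 ≤ L 0 * C 0 := hLC.le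
    linarith
  · intro hX0
    have hXa : |X| = -X := abs_of_nonpos hX0
    rw [hXa] at a4 a5 hb1 hb2
    have a6 : ℓ 1 * X ≤ 0 := mul_nonpos_of_nonneg_of_nonpos a7 hX0
    have a10 : 0 ≤ L 0 * (-X) := mul_nonneg hL0'.le (by linarith)
    have a9 : L 0 * Z * (-X) ≤ L 0 * (-X) := by
      have := mul_le_mul_of_nonneg_left hZ1 a10
      linarith
    have a11 : 0 ≤ L 0 * C 0 := hLC.le
    linarith

lemma x1_zero (ch : Ch η lm L C ℓ B T x R V) : x 1 0 = 0 := by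
  have h1 := ch.Rsq 1 0 ⟨le_rfl, ch.hT⟩
  have h2 : R 1 0 = 0 := ch.hn 0
  rw [h2] at h1
  nlinarith [sq_nonneg (x 1 0), sq_nonneg (R (1 + 1) 0)]

lemma x1_nonneg (ch : Ch η lm L C ℓ B T x R V) (f : Nf η lm L C ℓ) {t : ℝ} (ht : t ∈ Ico 0 T)
    (h : ∀ s ∈ Icc 0 t, R 2 s ≤ Real.exp (-(lm 1)) ∧ 98 / 100 ≤ x 0 s) : 0 ≤ x 1 t := by
  have hd : ∀ s, s ∈ Ioo 0 t → ∃ v, HasDerivAt (x 1) v s ∧
      (0 ≤ x 1 s → 9 / 10 * L 0 * x 1 s + 9 / 20 * (L 0 * C 0) ≤ v) ∧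
      (x 1 s ≤ 0 → -v ≤ 2 * L 0 * (-x 1 s)) := fun s hs =>
    dineq ch f ⟨hs.1, hs.2.trans ht.2⟩ (h s ⟨hs.1.le, hs.2.le⟩).1 (h s ⟨hs.1.le, hs.2.le⟩).2
  choose! v hv using hd
  have hL0 := f.L0
  have := pos_gron (g := fun s => -x 1 s) (g' := fun s => -v s) (Q := fun s => 2 * L 0 * s)
    (Q' := fun _ => 2 * L 0 * 1) (b := t) (ζ := 0) ht.1 le_rfl
    ((ch.cx 1).mono fun τ hτ => ⟨hτ.1, hτ.2.trans_lt ht.2⟩).neg
    (fun s hs => (hv s hs).1.neg) (continuousOn_const.mul continuousOn_id)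
    (fun s _ => (hasDerivAt_id s).const_mul _) (fun _ _ => by linarith)
    (by simp only [x1_zero ch]; norm_num)
    (fun s hs hs0 => by
      have h1 := (hv s hs).2.2 (by linarith)
      linarith)
  simp only [zero_mul, mul_zero] at this
  linarith

lemma x1_grow (ch : Ch η lm L C ℓ B T x R V) (f : Nf η lm L C ℓ) {t : ℝ} (ht : t ∈ Ico 0 T)
    (h : ∀ s ∈ Icc 0 t, R 2 s ≤ Real.exp (-(lm 1)) ∧ 98 / 100 ≤ x 0 s) :
    C 0 / 2 ≤ (x 1 t + C 0 / 2) * Real.exp (-(9 / 10 * L 0) * t) := by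
  have hd : ∀ s, s ∈ Ioo 0 t → ∃ v, HasDerivAt (x 1) v s ∧
      (0 ≤ x 1 s → 9 / 10 * L 0 * x 1 s + 9 / 20 * (L 0 * C 0) ≤ v) ∧
      (x 1 s ≤ 0 → -v ≤ 2 * L 0 * (-x 1 s)) := fun s hs =>
    dineq ch f ⟨hs.1, hs.2.trans ht.2⟩ (h s ⟨hs.1.le, hs.2.le⟩).1 (h s ⟨hs.1.le, hs.2.le⟩).2
  choose! v hv using hd
  have hx : ∀ s ∈ Ioo 0 t, 0 ≤ x 1 s := fun s hs =>
    x1_nonneg ch f ⟨hs.1.le, hs.2.trans ht.2⟩ fun τ hτ => h τ ⟨hτ.1, hτ.2.trans hs.2.le⟩
  have hm := mono_of (f := fun s => (x 1 s + C 0 / 2) * Real.exp (-(9 / 10 * L 0) * s))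
    (f' := fun s => v s * Real.exp (-(9 / 10 * L 0) * s) + (x 1 s + C 0 / 2) *
      (Real.exp (-(9 / 10 * L 0) * s) * (-(9 / 10 * L 0) * 1))) ht.1
    ((((ch.cx 1).mono fun τ hτ => ⟨hτ.1, hτ.2.trans_lt ht.2⟩).add continuousOn_const).mul
      (by fun_prop))
    (fun s hs => ((hv s hs).1.add_const _).mul (((hasDerivAt_id s).const_mul _).exp))
    (fun s hs => by
      have h1 := (hv s hs).2.1 (hx s hs)
      have h2 := Real.exp_pos (-(9 / 10 * L 0) * s)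
      have e : v s * Real.exp (-(9 / 10 * L 0) * s) + (x 1 s + C 0 / 2) *
        (Real.exp (-(9 / 10 * L 0) * s) * (-(9 / 10 * L 0) * 1)) =
        (v s - (9 / 10 * L 0 * x 1 s + 9 / 20 * (L 0 * C 0))) *
          Real.exp (-(9 / 10 * L 0) * s) := by ring
      rw [e]
      exact mul_nonneg (by linarith) h2.le)
  simp only [x1_zero ch, mul_zero, Real.exp_zero, mul_one, zero_add] at hm
  exact hm

theorem t_BASE : S_BASE := by
  intro η lm L C ℓ B T x R V ch gz upa far neg enl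
  have f := nf ch.sq ch.nm
  have hL0 := f.L0
  have hL0' : 0 < L 0 := by linarith
  have hl0 : 0 < lm 0 := lt_of_lt_of_le (by norm_num) f.l0
  have hx1R : ∀ s ∈ Ico 0 T, x 1 s ≤ R 1 s := by
    intro s hs
    have h1 := ch.Rsq 1 s hs
    exact abs_le_of_sq_le_sq' (by nlinarith [sq_nonneg (R (1 + 1) s)]) (ch.R0 1 s hs) |>.2
  -- the time is short
  have hA : ∀ t ∈ Ico 0 T, Th L R 0 t ≤ cn η 0 → L 0 * t ≤ 2 * lm 0 := by
    intro t ht hTh
    by_contra hcon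
    push Not at hcon
    set t' := 2 * lm 0 / L 0 with ht'
    have e : L 0 * t' = 2 * lm 0 := by rw [ht']; field_simp
    have h1 : t' < t := by
      by_contra h
      push Not at h
      have := mul_le_mul_of_nonneg_left h hL0'.le
      linarith
    have h0 : 0 ≤ t' := by positivity
    have hmem : t' ∈ Ico 0 T := ⟨h0, h1.trans ht.2⟩
    have hs := step1 ch gz upa enl f hmem ((Th_mono ch 0 hmem ht h1.le).trans hTh)
      (by linarith)
    have hg := x1_grow ch f hmem fun s hs' => ⟨(hs s hs').1, (hs s hs').2.2⟩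
    have hR1 := (hs t' ⟨h0, le_rfl⟩).2.1
    have hx1 := hx1R t' hmem
    have hc := f.c1
    have hC := f.Ch
    have hx1' : x 1 t' ≤ 1 := by
      have : 3 * ((1 : ℝ) / 10 ^ 5) ≤ 1 := by norm_num
      linarith
    have h3 : (x 1 t' + C 0 / 2) * Real.exp (-(9 / 10 * L 0) * t') ≤
        2 * Real.exp (-(18 / 10 * lm 0)) := by
      have e2 : -(9 / 10 * L 0) * t' = -(18 / 10 * lm 0) := by
        have : -(9 / 10 * L 0) * t' = -(9 / 10) * (L 0 * t') := by ring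
        rw [this, e]; ring
      rw [e2]
      refine mul_le_mul_of_nonneg_right (by linarith) (Real.exp_pos _).le
    have h4 := f.Clo
    have h5 : Real.exp (-(16 / 10 * lm 0)) ≤ 4 * Real.exp (-(18 / 10 * lm 0)) := by linarith
    have h6 : Real.exp (-(16 / 10 * lm 0)) =
        Real.exp (2 / 10 * lm 0) * Real.exp (-(18 / 10 * lm 0)) := by
      rw [← Real.exp_add]; congr 1; ring
    rw [h6] at h5
    have h7 : Real.exp (2 / 10 * lm 0) ≤ 4 := le_of_mul_le_mul_right h5 (Real.exp_pos _)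
    have h8 := Real.add_one_le_exp (2 / 10 * lm 0)
    have h9 := f.l0
    have h10 : (20 : ℝ) < 10 ^ 30 := by norm_num
    linarith
  intro t ht hTh
  have hLt := hA t ht hTh
  have hs := step1 ch gz upa enl f ht hTh (by linarith)
  refine ⟨hLt, ?_, ?_⟩
  · have := (hs t ⟨ht.1, le_rfl⟩).2.2
    linarith
  intro hTe
  have hh : ∀ s ∈ Icc 0 t, R 2 s ≤ Real.exp (-(lm 1)) ∧ 98 / 100 ≤ x 0 s :=
    fun s hs' => ⟨(hs s hs').1, (hs s hs').2.2⟩
  have hd : ∀ s, s ∈ Ioo 0 t → ∃ v, HasDerivAt (x 1) v s ∧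
      (0 ≤ x 1 s → 9 / 10 * L 0 * x 1 s + 9 / 20 * (L 0 * C 0) ≤ v) ∧
      (x 1 s ≤ 0 → -v ≤ 2 * L 0 * (-x 1 s)) := fun s hs =>
    dineq ch f ⟨hs.1, hs.2.trans ht.2⟩ (hh s ⟨hs.1.le, hs.2.le⟩).1 (hh s ⟨hs.1.le, hs.2.le⟩).2
  choose! v hv using hd
  have hx : ∀ s ∈ Icc 0 t, 0 ≤ x 1 s := fun s hs =>
    x1_nonneg ch f ⟨hs.1, hs.2.trans_lt ht.2⟩ fun τ hτ => hh τ ⟨hτ.1, hτ.2.trans hs.2⟩
  have hC0 : 0 < C 0 := ch.nm.C0 0
  have hm := mono_of (f := fun s => x 1 s - 9 / 10 * Th L R 0 s +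
      L 0 * Real.exp (-(lm 1)) * s)
    (f' := fun s => v s - 9 / 10 * (L 0 * R 1 s) + L 0 * Real.exp (-(lm 1)) * 1) ht.1
    ((((ch.cx 1).mono fun τ hτ => ⟨hτ.1, hτ.2.trans_lt ht.2⟩).sub (continuousOn_const.mul
      ((Pr_cont (Th_cont ch 0)).mono fun τ hτ => ⟨hτ.1, hτ.2.trans_lt ht.2⟩))).add
      (continuousOn_const.mul continuousOn_id))
    (fun s hs => ((hv s hs).1.sub ((Pr_deriv (Th_cont ch 0)
      ⟨hs.1, hs.2.trans ht.2⟩).const_mul _)).add ((hasDerivAt_id s).const_mul _))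
    (fun s hs' => by
      have h1 := (hv s hs').2.1 (hx s ⟨hs'.1.le, hs'.2.le⟩)
      have hsT : s ∈ Ico 0 T := ⟨hs'.1.le, hs'.2.trans ht.2⟩
      have h2 := ch.Rsq 1 s hsT
      have h3 := ch.R0 (1 + 1) s hsT
      have h4 := ch.R0 1 s hsT
      have h5 := hx s ⟨hs'.1.le, hs'.2.le⟩
      have h6 : R 1 s ≤ x 1 s + R (1 + 1) s := by
        refine abs_le_of_sq_le_sq' ?_ (by linarith) |>.2
        rw [h2]
        nlinarith [mul_nonneg h5 h3]
      have h7 := (hh s ⟨hs'.1.le, hs'.2.le⟩).1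
      have h8 : R (1 + 1) s = R 2 s := rfl
      rw [h8] at h6
      have h9 : L 0 * R 1 s ≤ L 0 * (x 1 s + Real.exp (-(lm 1))) :=
        mul_le_mul_of_nonneg_left (by linarith) hL0'.le
      have h10 : 0 < L 0 * C 0 := by positivity
      have h11 := mul_pos hL0' (Real.exp_pos (-(lm 1)))
      nlinarith)
  have h0 : Th L R 0 0 = 0 := Pr_zero _
  simp only [x1_zero ch, h0, mul_zero, sub_zero, add_zero] at hm
  have h1 := f.tb
  have h2 : L 0 * Real.exp (-(lm 1)) * t ≤ 2 * lm 0 * Real.exp (-(lm 1)) := by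
    have := mul_le_mul_of_nonneg_right hLt (Real.exp_pos (-(lm 1))).le
    linarith
  have h3 := f.c0
  rw [hTe] at hm
  linarith

end

end Pool.Agent.Y273.EJ
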